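import Mathlib

set_option autoImplicit false

namespace Pool.Agent.Results.MP_5e3b67_co.NoMap

open Finset

lemma core {ι α : Type} [Fintype α] [DecidableEq α] [DecidableEq ι] (M : ℕ) (hM : 0 < M) (T : ι → Finset α)
    (r : ℕ) : ∀ (C : Finset α) (J : Finset ι), (∀ j ∈ J, C ⊆ T j ∧ (T j \ C).card ≤ r) →
      2 * M ^ r ≤ J.card → ∃ (C' : Finset α) (J' : Finset ι), C ⊆ C' ∧ (∀ j ∈ J', C' ⊆ T j) ∧
        2 ≤ J'.card ∧ ∀ a, a ∉ C' → M * (J'.filter fun j => a ∈ T j).card ≤ J'.card := by
  induction r with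
  | zero =>
    intro C J h hJ
    refine ⟨C, J, Subset.rfl, fun j hj => (h j hj).1, by simpa using hJ, fun a ha => ?_⟩
    have : (J.filter fun j => a ∈ T j) = ∅ := by
      rw [filter_eq_empty_iff]
      intro j hj hm
      have h1 := (h j hj).2
      have h2 : 0 < (T j \ C).card := card_pos.2 ⟨a, mem_sdiff.2 ⟨hm, ha⟩⟩
      omega
    simp [this]
  | succ r ih =>
    intro C J h hJ
    by_cases hc : ∀ a, a ∉ C → M * (J.filter fun j => a ∈ T j).card ≤ J.card
    · refine ⟨C, J, Subset.rfl, fun j hj => (h j hj).1, ?_, hc⟩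
      have : 0 < M ^ (r + 1) := by positivity
      omega
    · push Not at hc
      obtain ⟨a, ha, hlt⟩ := hc
      refine (ih (insert a C) (J.filter fun j => a ∈ T j) ?_ ?_).imp fun C' h => h.imp
        fun J' h => ⟨(subset_insert _ _).trans h.1, h.2⟩
      · intro j hj
        obtain ⟨hj1, hj2⟩ := mem_filter.1 hj
        refine ⟨insert_subset hj2 (h j hj1).1, ?_⟩
        have h5 := (h j hj1).2
        have h6 : T j \ insert a C = (T j \ C).erase a := by
          ext x; simp [and_comm, and_assoc, and_left_comm]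
        rw [h6, card_erase_of_mem (mem_sdiff.2 ⟨hj2, ha⟩)]
        omega
      · have h5 : M * (2 * M ^ r) < M * (J.filter fun j => a ∈ T j).card := by
          calc M * (2 * M ^ r) = 2 * M ^ (r + 1) := by ring
            _ ≤ J.card := hJ
            _ < _ := hlt
        exact (Nat.lt_of_mul_lt_mul_left h5).le

theorem result (K : ℕ) (L : ℝ) : ∃ n : ℕ,
    ∀ φ : (Fin (n + 1) → ZMod 2) ≃ (Fin (n + 1) → ZMod 2),
      (∀ x, ∑ i, φ x i = x 0) →
      (∀ i, ∃ S : Finset (Fin (n + 1)), S.card ≤ K ∧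
        ∀ x y, (∀ j ∈ S, x j = y j) → φ x i = φ y i) →
      ¬ ∀ x y, (hammingDist (φ.symm x) (φ.symm y) : ℝ) ≤ L * hammingDist x y := by
  obtain ⟨n, hn⟩ : ∃ n, n = 2 * (2 * K + 1) ^ ⌈L⌉₊ := ⟨_, rfl⟩
  refine ⟨n, fun φ hx hloc hL => ?_⟩
  let x0 := φ.symm 0
  let xs : Fin (n + 1) → Fin (n + 1) → ZMod 2 := fun j => φ.symm (Pi.single j 1)
  let T : Fin (n + 1) → Finset (Fin (n + 1)) := fun j => univ.filter fun k => xs j k ≠ x0 k
  have h00 : x0 0 = 0 := by rw [← hx x0]; simp [x0]
  have hj0 : ∀ j, xs j 0 = 1 := fun j => by rw [← hx (xs j)]; simp [xs]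
  obtain ⟨C, J, h1, h2, h3, h4⟩ := core (2 * K + 1) (by omega) T ⌈L⌉₊ {0} univ (fun j _ => by
    refine ⟨by simp [T, h00, hj0], (card_le_card sdiff_subset).trans ?_⟩
    have h := hL (Pi.single j 1) 0
    have e : hammingDist (Pi.single j 1 : Fin (n + 1) → ZMod 2) 0 = 1 := by
      unfold hammingDist
      rw [card_eq_one]
      refine ⟨j, ?_⟩
      ext k
      by_cases hk : k = j <;> simp [hk]
    rw [e, Nat.cast_one, mul_one] at h
    have h' : hammingDist (φ.symm (Pi.single j 1)) (φ.symm 0) ≤ ⌈L⌉₊ := by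
      exact_mod_cast h.trans (Nat.le_ceil L)
    exact h') (by simp [hn])
  let x' : Fin (n + 1) → ZMod 2 := fun k => if k ∈ C then x0 k + 1 else x0 k
  have key : φ x' = 0 := by
    funext i
    obtain ⟨S, hS, hd⟩ := hloc i
    have hb : (insert i ((S \ C).biUnion fun a => J.filter fun j => a ∈ T j)).card < J.card := by
      have a1 := card_insert_le i ((S \ C).biUnion fun a => J.filter fun j => a ∈ T j)
      have a2 := card_biUnion_le (s := S \ C) (t := fun a => J.filter fun j => a ∈ T j)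
      have a3 : (2 * K + 1) * ∑ a ∈ S \ C, (J.filter fun j => a ∈ T j).card ≤ K * J.card := by
        rw [mul_sum]
        calc _ ≤ ∑ _a ∈ S \ C, J.card := sum_le_sum fun a ha => h4 a (mem_sdiff.1 ha).2
          _ = (S \ C).card * J.card := by simp
          _ ≤ K * J.card := by gcongr; exact (card_le_card sdiff_subset).trans hS
      nlinarith
    obtain ⟨j, hj, hj2⟩ := exists_mem_notMem_of_card_lt_card hb
    simp only [mem_insert, mem_biUnion, mem_filter, not_or, not_exists, not_and] at hj2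
    have e : φ x' i = φ (xs j) i := by
      refine hd _ _ fun a ha => ?_
      by_cases haC : a ∈ C
      · have h5 : xs j a ≠ x0 a := (mem_filter.1 (h2 j hj haC)).2
        have z : ∀ u v : ZMod 2, u ≠ v → v + 1 = u := by decide
        simp only [x', if_pos haC]
        exact z _ _ h5
      · have h5 := hj2.2 a (mem_sdiff.2 ⟨ha, haC⟩) hj
        simp only [T, mem_filter, mem_univ, true_and, not_not] at h5
        simp only [x', if_neg haC]
        exact h5.symm
    rw [e]
    simp [xs, Ne.symm hj2.1]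
  have e : x' = x0 := by rw [← φ.symm_apply_apply x', key]
  have h5 := congrFun e 0
  have h6 : (0 : Fin (n + 1)) ∈ C := h1 (mem_singleton_self _)
  simp [x', h6] at h5

end Pool.Agent.Results.MP_5e3b67_co.NoMap
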